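import Mathlib

/-!
Project PN (helper931), part PRD (helper169): weak convergence of probability measures on a product
to a product measure is tested by products of Lipschitz functions. Mathlib only; the theorem `main`
is in `PrdMain.lean`.
-/

set_option autoImplicit false

namespace Pool.Agent.N169.PN.Prd

open MeasureTheory Filter Topology

/-- a Lipschitz upper bound of the indicator of `E` -/
noncomputable def th {X : Type} [PseudoMetricSpace X] (n : ℕ) (E : Set X) (x : X) : ℝ :=
  ((thickenedIndicator (α := X) (δ := 1 / ((n : ℝ) + 1)) (by positivity) E x : NNReal) : ℝ)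

section

variable {X : Type} [PseudoMetricSpace X]

theorem th_nonneg (n : ℕ) (E : Set X) (x : X) : 0 ≤ th n E x := NNReal.coe_nonneg _

theorem th_le_one (n : ℕ) (E : Set X) (x : X) : th n E x ≤ 1 := by
  unfold th
  exact_mod_cast thickenedIndicator_le_one _ E x

theorem th_one (n : ℕ) {E : Set X} {x : X} (hx : x ∈ E) : th n E x = 1 := by
  unfold th
  rw [thickenedIndicator_one _ E hx]
  rfl

theorem th_lip (n : ℕ) (E : Set X) (x y : X) : |th n E x - th n E y| ≤ ((n : ℝ) + 1) * dist x y := by
  have h := lipschitzWith_thickenedIndicator (δ := 1 / ((n : ℝ) + 1)) (by positivity) E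
  have h1 := h.dist_le_mul x y
  rw [NNReal.dist_eq] at h1
  refine h1.trans (le_of_eq ?_)
  congr 1
  rw [NNReal.coe_inv, Real.coe_toNNReal _ (by positivity)]
  simp

theorem th_meas [MeasurableSpace X] [BorelSpace X] (n : ℕ) (E : Set X) : Measurable (th n E) := by
  unfold th
  exact (measurable_coe_nnreal_real.comp (BoundedContinuousFunction.continuous _).measurable)

theorem th_lim [MeasurableSpace X] [BorelSpace X] (μ : ProbabilityMeasure X) (E : Set X) :
    Tendsto (fun n => ∫ x, th n E x ∂(μ : Measure X)) atTop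
      (𝓝 ((μ : Measure X).real (closure E))) := by
  have h1 : (μ : Measure X).real (closure E) =
      ∫ x, (closure E).indicator (fun _ => (1 : ℝ)) x ∂(μ : Measure X) := by
    rw [integral_indicator_const (1 : ℝ) isClosed_closure.measurableSet]
    simp
  rw [h1]
  refine tendsto_integral_of_dominated_convergence (fun _ => (1 : ℝ)) ?_ (integrable_const _) ?_ ?_
  · intro n
    exact (th_meas n E).aestronglyMeasurable
  · intro n
    refine Eventually.of_forall fun x => ?_
    rw [Real.norm_eq_abs, abs_of_nonneg (th_nonneg n E x)]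
    exact th_le_one n E x
  · refine Eventually.of_forall fun x => ?_
    have h2 := thickenedIndicator_tendsto_indicator_closure
      (δseq := fun n : ℕ => 1 / ((n : ℝ) + 1)) (fun n => by positivity)
      tendsto_one_div_add_atTop_nhds_zero_nat E
    rw [tendsto_pi_nhds] at h2
    have h3 := (NNReal.tendsto_coe.2 (h2 x))
    have h4 : (((closure E).indicator (fun _ => (1 : NNReal)) x : NNReal) : ℝ) =
        (closure E).indicator (fun _ => (1 : ℝ)) x := by
      classical
      rw [Set.indicator_apply, Set.indicator_apply]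
      split_ifs <;> simp
    rw [h4] at h3
    exact h3

end

theorem core (X : Type) [PseudoMetricSpace X] [SecondCountableTopology X]
    [MeasurableSpace X] [BorelSpace X] (P : ℕ → ProbabilityMeasure (X × X))
    (μ ν : ProbabilityMeasure X)
    (hP : ∀ f g : X → ℝ, (∀ x y, |f x - f y| ≤ dist x y) → (∀ x, |f x| ≤ 1) →
      (∀ x y, |g x - g y| ≤ dist x y) → (∀ x, |g x| ≤ 1) →
      Tendsto (fun i => ∫ q, f q.1 * g q.2 ∂(P i : Measure (X × X))) atTop
        (𝓝 ((∫ x, f x ∂(μ : Measure X)) * ∫ x, g x ∂(ν : Measure X)))) :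
    Tendsto P atTop (𝓝 (μ.prod ν)) := by
  have hL : ∀ (f g : X → ℝ) (K K' : ℝ), (∀ x y, |f x - f y| ≤ K * dist x y) → (∀ x, |f x| ≤ 1) →
      (∀ x y, |g x - g y| ≤ K' * dist x y) → (∀ x, |g x| ≤ 1) →
      Tendsto (fun i => ∫ q, f q.1 * g q.2 ∂(P i : Measure (X × X))) atTop
        (𝓝 ((∫ x, f x ∂(μ : Measure X)) * ∫ x, g x ∂(ν : Measure X))) := by
    intro f g K K' hf hf1 hg hg1
    have hscale : ∀ (u : X → ℝ) (K : ℝ), (∀ x y, |u x - u y| ≤ K * dist x y) → (∀ x, |u x| ≤ 1) →
        (∀ x y, |(max 1 K)⁻¹ * u x - (max 1 K)⁻¹ * u y| ≤ dist x y) ∧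
          (∀ x, |(max 1 K)⁻¹ * u x| ≤ 1) := by
      intro u K hu hu1
      have hm : (0 : ℝ) < max 1 K := lt_of_lt_of_le one_pos (le_max_left _ _)
      have hm0 : (0 : ℝ) < (max 1 K)⁻¹ := inv_pos.2 hm
      constructor
      · intro x y
        rw [← mul_sub, abs_mul, abs_of_pos hm0, inv_mul_le_iff₀ hm]
        exact (hu x y).trans (mul_le_mul_of_nonneg_right (le_max_right _ _) dist_nonneg)
      · intro x
        rw [abs_mul, abs_of_pos hm0, inv_mul_le_iff₀ hm, mul_one]
        exact (hu1 x).trans (le_max_left _ _)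
    obtain ⟨a1, a2⟩ := hscale f K hf hf1
    obtain ⟨b1, b2⟩ := hscale g K' hg hg1
    have hm : (max 1 K : ℝ) ≠ 0 := (lt_of_lt_of_le one_pos (le_max_left _ _)).ne'
    have hm' : (max 1 K' : ℝ) ≠ 0 := (lt_of_lt_of_le one_pos (le_max_left _ _)).ne'
    have h1 := (hP _ _ a1 a2 b1 b2).const_mul (max 1 K * max 1 K')
    have e1 : (max 1 K * max 1 K') * ((∫ x, (max 1 K)⁻¹ * f x ∂(μ : Measure X)) *
        ∫ x, (max 1 K')⁻¹ * g x ∂(ν : Measure X)) =
        (∫ x, f x ∂(μ : Measure X)) * ∫ x, g x ∂(ν : Measure X) := by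
      rw [integral_const_mul, integral_const_mul]
      field_simp
    rw [e1] at h1
    refine h1.congr fun i => ?_
    rw [← integral_const_mul]
    refine integral_congr_ae (Eventually.of_forall fun q => ?_)
    show (max 1 K * max 1 K') * ((max 1 K)⁻¹ * f q.1 * ((max 1 K')⁻¹ * g q.2)) = f q.1 * g q.2
    field_simp
  let S : Set (Set (X × X)) := {t | ∃ (a : Set X) (b : Set X),
    MeasurableSet a ∧ (μ : Measure X) (frontier a) = 0 ∧ MeasurableSet b ∧
      (ν : Measure X) (frontier b) = 0 ∧ t = a ×ˢ b}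
  have hS : IsPiSystem S := by
    rintro - ⟨a, b, ameas, ha, bmeas, hb, rfl⟩ - ⟨a', b', a'meas, ha', b'meas, hb', rfl⟩ -
    exact ⟨a ∩ a', b ∩ b', ameas.inter a'meas, null_frontier_inter ha ha', bmeas.inter b'meas,
      null_frontier_inter hb hb', Set.prod_inter_prod⟩
  apply hS.tendsto_probabilityMeasure_of_tendsto_of_mem
  · rintro s ⟨a, b, ameas, -, bmeas, -, rfl⟩
    exact ameas.prod bmeas
  · intro u u_open x xu
    obtain ⟨ε, εpos, hε⟩ : ∃ ε > 0, Metric.ball x ε ⊆ u := Metric.isOpen_iff.1 u_open x xu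
    rcases exists_null_frontier_thickening (μ : Measure X) {x.1} εpos with ⟨r, hr, μr⟩
    rcases exists_null_frontier_thickening (ν : Measure X) {x.2} εpos with ⟨r', hr', μr'⟩
    simp only [Metric.thickening_singleton] at μr μr'
    refine ⟨Metric.ball x.1 r ×ˢ Metric.ball x.2 r', ⟨Metric.ball x.1 r, Metric.ball x.2 r',
      measurableSet_ball, μr, measurableSet_ball, μr', rfl⟩, ?_, ?_⟩
    · exact (Metric.isOpen_ball.prod Metric.isOpen_ball).mem_nhds (by simp [hr.1, hr'.1])
    · calc Metric.ball x.1 r ×ˢ Metric.ball x.2 r'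
      _ ⊆ Metric.ball x.1 ε ×ˢ Metric.ball x.2 ε := by gcongr; exacts [hr.2.le, hr'.2.le]
      _ ⊆ _ := by rwa [ball_prod_same]
  · rintro s ⟨a, b, ameas, ha, bmeas, hb, rfl⟩
    rw [← NNReal.tendsto_coe]
    have hval : (((μ.prod ν) (a ×ˢ b) : NNReal) : ℝ) =
        (μ : Measure X).real a * (ν : Measure X).real b := by
      rw [ProbabilityMeasure.prod_prod, NNReal.coe_mul]
      rfl
    rw [hval]
    have hreal : ∀ i, ((P i (a ×ˢ b) : NNReal) : ℝ) = (P i : Measure (X × X)).real (a ×ˢ b) :=
      fun i => rfl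
    simp only [hreal]
    -- upper and lower bounds
    have hbd : ∀ (f g : X → ℝ) (i : ℕ), Measurable f → Measurable g → (∀ x, |f x| ≤ 1) →
        (∀ x, |g x| ≤ 1) → Integrable (fun q : X × X => f q.1 * g q.2) (P i : Measure (X × X)) := by
      intro f g i hf hg hf1 hg1
      refine Integrable.of_bound
        ((hf.comp measurable_fst).mul (hg.comp measurable_snd)).aestronglyMeasurable 1
        (Eventually.of_forall fun q => ?_)
      rw [Real.norm_eq_abs, abs_mul]
      exact mul_le_one₀ (hf1 _) (abs_nonneg _) (hg1 _)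
    have hind : ∀ i, (P i : Measure (X × X)).real (a ×ˢ b) =
        ∫ q, (a ×ˢ b).indicator (fun _ => (1 : ℝ)) q ∂(P i : Measure (X × X)) := by
      intro i
      rw [integral_indicator_const (1 : ℝ) (ameas.prod bmeas)]
      simp
    have hint : ∀ i, Integrable (fun q : X × X => (a ×ˢ b).indicator (fun _ => (1 : ℝ)) q)
        (P i : Measure (X × X)) := fun i =>
      (integrable_const (1 : ℝ)).indicator (ameas.prod bmeas)
    have hU : ∀ n i, (P i : Measure (X × X)).real (a ×ˢ b) ≤
        ∫ q, th n a q.1 * th n b q.2 ∂(P i : Measure (X × X)) := by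
      intro n i
      rw [hind]
      refine integral_mono (hint i) (hbd _ _ i (th_meas n a) (th_meas n b) (fun x => ?_)
        (fun x => ?_)) (fun q => ?_)
      · rw [abs_of_nonneg (th_nonneg n a x)]
        exact th_le_one n a x
      · rw [abs_of_nonneg (th_nonneg n b x)]
        exact th_le_one n b x
      · by_cases hq : q ∈ a ×ˢ b
        · rw [Set.indicator_of_mem hq, th_one n hq.1, th_one n hq.2, one_mul]
        · rw [Set.indicator_of_notMem hq]
          exact mul_nonneg (th_nonneg _ _ _) (th_nonneg _ _ _)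
    have hLo : ∀ n i, ∫ q, (1 - th n aᶜ q.1) * (1 - th n bᶜ q.2) ∂(P i : Measure (X × X)) ≤
        (P i : Measure (X × X)).real (a ×ˢ b) := by
      intro n i
      rw [hind]
      refine integral_mono (hbd (fun x => 1 - th n aᶜ x) (fun x => 1 - th n bᶜ x) i
        ((measurable_const).sub (th_meas n aᶜ)) ((measurable_const).sub (th_meas n bᶜ))
        (fun x => ?_) (fun x => ?_)) (hint i) (fun q => ?_)
      · rw [abs_of_nonneg (sub_nonneg.2 (th_le_one n aᶜ x))]
        linarith [th_nonneg n aᶜ x]
      · rw [abs_of_nonneg (sub_nonneg.2 (th_le_one n bᶜ x))]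
        linarith [th_nonneg n bᶜ x]
      · have h0 : 0 ≤ 1 - th n aᶜ q.1 := sub_nonneg.2 (th_le_one n aᶜ q.1)
        have h0' : 0 ≤ 1 - th n bᶜ q.2 := sub_nonneg.2 (th_le_one n bᶜ q.2)
        by_cases hq : q ∈ a ×ˢ b
        · rw [Set.indicator_of_mem hq]
          exact mul_le_one₀ (by linarith [th_nonneg n aᶜ q.1]) h0' (by linarith [th_nonneg n bᶜ q.2])
        · rw [Set.indicator_of_notMem hq]
          by_cases h1 : q.1 ∈ a
          · have h2 : q.2 ∈ bᶜ := fun h => hq ⟨h1, h⟩
            show (1 - th n aᶜ q.1) * (1 - th n bᶜ q.2) ≤ 0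
            rw [th_one n h2, sub_self, mul_zero]
          · show (1 - th n aᶜ q.1) * (1 - th n bᶜ q.2) ≤ 0
            rw [th_one n (show q.1 ∈ aᶜ from h1), sub_self, zero_mul]
    have hfr : ∀ (ρ : ProbabilityMeasure X) (c : Set X), MeasurableSet c →
        (ρ : Measure X) (frontier c) = 0 →
        (ρ : Measure X).real (closure c) = (ρ : Measure X).real c ∧
        1 - (ρ : Measure X).real (closure cᶜ) = (ρ : Measure X).real c := by
      intro ρ c hc h0
      have e1 : ∀ c : Set X, (ρ : Measure X) (frontier c) = 0 →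
          (ρ : Measure X).real (closure c) = (ρ : Measure X).real c := by
        intro c h0
        refine le_antisymm ?_ (measureReal_mono subset_closure)
        have h1 : closure c ⊆ c ∪ frontier c := by
          rw [← closure_eq_self_union_frontier]
        refine (measureReal_mono h1).trans ((measureReal_union_le _ _).trans ?_)
        have : (ρ : Measure X).real (frontier c) = 0 := by
          rw [Measure.real, h0]
          rfl
        rw [this, add_zero]
      refine ⟨e1 c h0, ?_⟩
      rw [e1 cᶜ (by rw [frontier_compl]; exact h0), probReal_compl_eq_one_sub hc]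
      ring
    obtain ⟨ea, ea'⟩ := hfr μ a ameas ha
    obtain ⟨eb, eb'⟩ := hfr ν b bmeas hb
    have lU : Tendsto (fun n => (∫ x, th n a x ∂(μ : Measure X)) * ∫ x, th n b x ∂(ν : Measure X))
        atTop (𝓝 ((μ : Measure X).real a * (ν : Measure X).real b)) := by
      have := (th_lim μ a).mul (th_lim ν b)
      rwa [ea, eb] at this
    have hsub : ∀ (ρ : ProbabilityMeasure X) (n : ℕ) (c : Set X),
        ∫ x, (1 - th n c x) ∂(ρ : Measure X) = 1 - ∫ x, th n c x ∂(ρ : Measure X) := by
      intro ρ n c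
      rw [integral_sub (integrable_const _)]
      · simp
      · refine Integrable.of_bound (th_meas n c).aestronglyMeasurable 1
          (Eventually.of_forall fun x => ?_)
        rw [Real.norm_eq_abs, abs_of_nonneg (th_nonneg n c x)]
        exact th_le_one n c x
    have lL : Tendsto (fun n => (∫ x, (1 - th n aᶜ x) ∂(μ : Measure X)) *
        ∫ x, (1 - th n bᶜ x) ∂(ν : Measure X))
        atTop (𝓝 ((μ : Measure X).real a * (ν : Measure X).real b)) := by
      simp only [hsub]
      have := ((th_lim μ aᶜ).const_sub 1).mul ((th_lim ν bᶜ).const_sub 1)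
      rwa [ea', eb'] at this
    rw [Metric.tendsto_atTop]
    intro ε hε
    obtain ⟨n, hn1, hn2⟩ := (((tendsto_order.1 lU).2
      ((μ : Measure X).real a * (ν : Measure X).real b + ε) (by linarith)).and
      ((tendsto_order.1 lL).1 ((μ : Measure X).real a * (ν : Measure X).real b - ε)
        (by linarith))).exists
    have t1 := hL (th n a) (th n b) (n + 1) (n + 1) (th_lip n a) (fun x => by
      rw [abs_of_nonneg (th_nonneg n a x)]
      exact th_le_one n a x) (th_lip n b) (fun x => by
      rw [abs_of_nonneg (th_nonneg n b x)]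
      exact th_le_one n b x)
    have hlip' : ∀ c : Set X, ∀ x y, |(1 - th n c x) - (1 - th n c y)| ≤ ((n : ℝ) + 1) * dist x y := by
      intro c x y
      have e : (1 - th n c x) - (1 - th n c y) = -(th n c x - th n c y) := by ring
      rw [e, abs_neg]
      exact th_lip n c x y
    have hb' : ∀ c : Set X, ∀ x, |1 - th n c x| ≤ 1 := by
      intro c x
      rw [abs_of_nonneg (sub_nonneg.2 (th_le_one n c x))]
      linarith [th_nonneg n c x]
    have t2 := hL (fun x => 1 - th n aᶜ x) (fun x => 1 - th n bᶜ x) (n + 1) (n + 1) (hlip' aᶜ)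
      (hb' aᶜ) (hlip' bᶜ) (hb' bᶜ)
    have e1 := (tendsto_order.1 t1).2 _ hn1
    have e2 := (tendsto_order.1 t2).1 _ hn2
    obtain ⟨N, hN⟩ := (e1.and e2).exists_forall_of_atTop
    refine ⟨N, fun i hi => ?_⟩
    obtain ⟨h1, h2⟩ := hN i hi
    rw [Real.dist_eq, abs_lt]
    have h3 := hU n i
    have h4 := hLo n i
    constructor <;> linarith

end Pool.Agent.N169.PN.Prd
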