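import Pool.Agent.N931.PN.Stm4
import Pool.Agent.N169.PN.Prd

/-! Project PN (helper931), part PRD (helper169). -/

set_option autoImplicit false

namespace Pool.Agent.N169.PN.Prd

theorem main : Pool.Agent.N931.PN.S_PRD := fun X _ _ _ _ P μ ν hP => core X P μ ν hP

end Pool.Agent.N169.PN.Prd
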